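import Pool.Agent.T4h89.OM.Final3

/-!
# Almost all morphisms of projective spaces: orbits avoiding a point modulo primes

Let `N ≥ 1` and `d ≥ 2`. For 100 percent of the pairs consisting of `N + 1` forms of degree `d` in `N + 1`
variables with integral coefficients and an integral vector `y` (ordered by the maximum of the absolute
values of all coefficients and coordinates) the forms define a morphism `Φ` of `ℙ^N` over `ℚ`, `y ≠ 0`, and
for every point `γ₁` over `ℚ` whose orbit does not contain `y` the set of the prime numbers modulo which
no iterate of `Φ` maps `γ₁` to `y` has positive density.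

Proof. By `PreperiodicTargets` one prime number `p` at which the forms have good reduction and `y` is not
periodic suffices. Modulo a large prime number `p`, at least about a third of all maps have no point
over `𝔽_p` in the fibre of `y` (inequality of Bonferroni with the first three moments; the values of a
random form of degree `d ≥ 2` at up to three distinct points are independent), and almost all of them
have nonzero resultant. By the Chinese remainder theorem almost all integral vectors lie in one of these
sets of residue classes.
-/

set_option autoImplicit false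

open NumberField IsDedekindDomain Filter Topology

namespace Pool.Agent.Results.MP_df4dfc_nt.AlmostAllMaps

open Pool.Agent.T4h89.OM

/-- `formsOf c` is the tuple of the forms of degree `d` with the coefficient vectors `c i`
(indexed by the set `Mon (N + 1) d` of the exponents of degree `d`); see `PreperiodicTargets` for
`IsMor`, `ev`, `Par`, `Avoid`, `PosDens`. -/
theorem result (N d : ℕ) (hN : 1 ≤ N) (hd : 2 ≤ d) :
    Tendsto (fun B : ℕ =>
      (Nat.card {p : (Fin (N + 1) → Mon (N + 1) d → ℤ) × (Fin (N + 1) → ℤ) //
        ((∀ i m, |p.1 i m| ≤ B) ∧ ∀ i, |p.2 i| ≤ B) ∧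
        IsMor d (formsOf fun i m => ((p.1 i m : ℤ) : ℚ)) ∧ p.2 ≠ 0 ∧
        ∀ γ₁ : Fin (N + 1) → ℚ, γ₁ ≠ 0 →
          (∀ m : ℕ, ¬ Par ((ev (formsOf fun i m => ((p.1 i m : ℤ) : ℚ)))^[m] γ₁) (fun i => (p.2 i : ℚ))) →
          PosDens (Avoid (formsOf fun i m => ((p.1 i m : ℤ) : ℚ)) γ₁ (fun i => (p.2 i : ℚ)))} : ℝ) /
      (Nat.card {p : (Fin (N + 1) → Mon (N + 1) d → ℤ) × (Fin (N + 1) → ℤ) //
        (∀ i m, |p.1 i m| ≤ B) ∧ ∀ i, |p.2 i| ≤ B} : ℝ)) atTop (𝓝 1) :=
  main3 (N + 1) d (by omega) hd

end Pool.Agent.Results.MP_df4dfc_nt.AlmostAllMaps
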