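import Pool.Agent.T4h89.OM.Final4

/-!
# Orbits avoiding a point modulo primes: every morphism, almost all targets

Let `Φ` be any morphism of `ℙ^N` over `ℚ` of degree `d ≥ 2`, `N ≥ 1`. For 100 percent of the integral vectors
`y` (ordered by the maximum of the absolute values of the coordinates), `y ≠ 0` and for every point `γ₁`
over `ℚ` whose orbit does not contain `y` the set of the prime numbers modulo which no iterate of `Φ` maps
`γ₁` to `y` has positive density.

Proof. Let `F` be the forms of `Φ`. The ring `ℚ[X]` is finite over `ℚ[F]`, of degree `M > d`. By the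
irreducibility theorem of Hilbert (with densities) for 100 percent of the `y` all points of the fibre
`F(x) = y` have degree at least `M`; as the fibre has at most `M` points, the Galois group acts transitively
on it and, as `M > d`, not all its points give the same point of `ℙ^N`. By the theorem of Jordan there is an
automorphism `σ` without fixed point in the fibre of `Φ` over `y`. By the theorem of Chebotarev there are
infinitely many prime numbers `p` modulo which `y` has no preimage over `𝔽_p`; then `y` is not periodic
modulo `p`, and the criterion of the proof of `PreperiodicTargets` applies.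
-/

set_option autoImplicit false

open NumberField IsDedekindDomain Filter Topology

namespace Pool.Agent.Results.MP_df4dfc_nt.EveryMap

open Pool.Agent.T4h89.OM

/-- `F` gives the morphism `Φ` of `ℙ^N` (`IsMor`); see `PreperiodicTargets` for `IsMor`, `ev`, `Par`, `Avoid`,
`PosDens`. The numerator counts the vectors `y ≠ 0` in the box such that for all `γ₁` whose orbit does not
contain `y` the set `S(Φ, γ₁, y)` has positive density. -/
theorem result (N d : ℕ) (hN : 1 ≤ N) (hd : 2 ≤ d) (F : Fin (N + 1) → MvPolynomial (Fin (N + 1)) ℚ)
    (hF : IsMor d F) :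
    Tendsto (fun B : ℕ =>
      (Nat.card {y : Fin (N + 1) → ℤ // (∀ i, |y i| ≤ B) ∧ y ≠ 0 ∧
        ∀ γ₁ : Fin (N + 1) → ℚ, γ₁ ≠ 0 →
          (∀ m : ℕ, ¬ Par ((ev F)^[m] γ₁) (fun i => (y i : ℚ))) →
          PosDens (Avoid F γ₁ (fun i => (y i : ℚ)))} : ℝ) /
      (2 * B + 1 : ℝ) ^ (N + 1)) atTop (𝓝 1) :=
  main4 (N + 1) d (by omega) hd F hF

end Pool.Agent.Results.MP_df4dfc_nt.EveryMap
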