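import Pool.Agent.T4h89.OM.Final1

/-!
# Orbits avoiding a preperiodic point modulo primes

Let `Φ` be a morphism of degree `d ≥ 1` of the projective space `ℙ^N` over a number field `K`, and
let `γ₁`, `γ₂` be points over `K` such that no iterate of `Φ` maps `γ₁` to `γ₂`. If `γ₂` is
preperiodic, or if `γ₂` is not periodic modulo a single prime ideal of good reduction, then the set of
the prime ideals modulo which no iterate maps `γ₁` to `γ₂` has positive density.

Proof. Let `C` be the cycle of `γ₂`, or `{γ₂}` if `γ₂` is not periodic, and let `T_M` be the finite set
of the points over the algebraic closure which enter `C` after exactly `M` steps. For a suitable prime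
ideal `v₀` of good reduction no point over the residue field `k₀` of `v₀` enters `C` modulo `v₀` for
the first time after `M` steps if `M` is at least the number of the points over `k₀`. Hence a Frobenius
automorphism `σ` at `v₀` fixes no point of `T_M`. By the theorem of Chebotarev a positive proportion of the
prime ideals `v` has the Frobenius automorphism `σ` on the field of definition of `T_M`, and for almost
all of these no point over the residue field of `v` is the reduction of a point of `T_M`, that is
(Nullstellensatz), enters `C` modulo `v` after exactly `M` steps. So the orbit of `γ₁` modulo `v` can meet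
`C` only in the first `M` steps, which happens for finitely many `v` only.

The forms and the residue fields are treated with the help of the ring of all algebraic integers.
-/

set_option autoImplicit false

open NumberField IsDedekindDomain

namespace Pool.Agent.Results.MP_df4dfc_nt.PreperiodicTargets

open Pool.Agent.T4h89.OM

/-- `F` gives the morphism `Φ` in homogeneous coordinates (`IsMor`: forms of degree `d` without
common zero), `ev F` is the map on the coordinate vectors, `Par x y` says that the coordinate vectors
`x` and `y` give the same point, `Cong v x y` that these points have the same reduction modulo `v`;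
`Avoid F γ₁ γ₂` is the set `S` of the prime ideals modulo which the orbit of `γ₁` avoids `γ₂`. -/
theorem result (K : Type) [Field K] [NumberField K] (N d : ℕ) (hd : 1 ≤ d)
    (F : Fin (N + 1) → MvPolynomial (Fin (N + 1)) K) (hF : IsMor d F)
    (γ₁ γ₂ : Fin (N + 1) → K) (h₁ : γ₁ ≠ 0) (h₂ : γ₂ ≠ 0)
    (hne : ∀ m : ℕ, ¬ Par ((ev F)^[m] γ₁) γ₂)
    (hcase : (∃ m m' : ℕ, m < m' ∧ Par ((ev F)^[m] γ₂) ((ev F)^[m'] γ₂)) ∨
      ∃ v : HeightOneSpectrum (𝓞 K), GoodRed v F ∧
        ∀ m : ℕ, 1 ≤ m → ¬ Cong v ((ev F)^[m] γ₂) γ₂) :
    PosDens (Avoid F γ₁ γ₂) :=
  main1 K (N + 1) d hd F hF γ₁ γ₂ h₁ h₂ hne hcase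

end Pool.Agent.Results.MP_df4dfc_nt.PreperiodicTargets
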