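import Pool.Agent.T4h89.OM.Final2

/-!
# Orbits avoiding a point modulo primes: triangular maps

Let `F_i`, `0 ≤ i ≤ N`, be a form of degree `d ≥ 2` in `X_0, …, X_i` over a number field `K` whose
coefficient at `X_i ^ d` is not zero. The forms define a morphism `Φ` of `ℙ^N` (for instance a product
of polynomials of degree `d` in one variable, or a polynomial skew product). For all points `γ₁`, `γ₂`
over `K` such that no iterate maps `γ₁` to `γ₂` the set of the prime ideals modulo which no iterate maps
`γ₁` to `γ₂` has positive density.

Proof. If `γ₂` is preperiodic this is the hand-in `PreperiodicTargets` (a library theorem here). If not,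
it suffices by the theorem of Chebotarev that `γ₂` is not periodic modulo infinitely many prime ideals. Take
the first coordinate (in the affine chart of the first nonzero coordinate) at which the orbit of `γ₂`
becomes infinite. If the preceding coordinates are strictly preperiodic we are done; otherwise they are
periodic, and the coordinate moves under the iteration of a polynomial `f` of degree at least two in one
variable. This has two periodic points `δ₁ ≠ δ₂` with `f²(δ_i) = δ_i`. If the starting value `α` were
periodic modulo almost all prime ideals, then `f^(2m)(α) - δ₁` and `f^(2m)(α) - δ₂` would be units outside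
of a finite set of places for all `m`, since an orbit which meets a periodic orbit modulo a prime
ideal and is periodic modulo this prime ideal starts in it. Their difference is constant, so by the
theorem on the unit equation there are only finitely many values, a contradiction.
-/

set_option autoImplicit false

open NumberField IsDedekindDomain

namespace Pool.Agent.Results.MP_df4dfc_nt.TriangularMaps

open Pool.Agent.T4h89.OM

/-- `F_i` is a form of degree `d` in `X_0, …, X_i` with nonzero coefficient at `X_i ^ d` -/
structure Triangular {K : Type} [Field K] {N : ℕ} (d : ℕ)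
    (F : Fin (N + 1) → MvPolynomial (Fin (N + 1)) K) : Prop where
  hom : ∀ i, (F i).IsHomogeneous d
  vars : ∀ i, ∀ j ∈ (F i).vars, j ≤ i
  lead : ∀ i, (F i).coeff (Finsupp.single i d) ≠ 0

/-- Triangular forms define a morphism (`IsMor d F`). `ev F` is the map on the coordinate vectors, `Par x y` says that
the coordinate vectors `x` and `y` give the same point, `Cong v x y` (in `Avoid`) that these points have the
same reduction modulo `v`. -/
theorem result (K : Type) [Field K] [NumberField K] (N d : ℕ) (hd : 2 ≤ d)
    (F : Fin (N + 1) → MvPolynomial (Fin (N + 1)) K) (hF : Triangular d F) :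
    IsMor d F ∧ ∀ γ₁ γ₂ : Fin (N + 1) → K, γ₁ ≠ 0 → γ₂ ≠ 0 →
      (∀ m : ℕ, ¬ Par ((ev F)^[m] γ₁) γ₂) → PosDens (Avoid F γ₁ γ₂) :=
  have h : Tri d F := ⟨hF.hom, hF.vars, hF.lead⟩
  ⟨t_TRM K (N + 1) d (by omega) F h, fun γ₁ γ₂ h₁ h₂ hne => main2 K (N + 1) d hd F h γ₁ γ₂ h₁ h₂ hne⟩

end Pool.Agent.Results.MP_df4dfc_nt.TriangularMaps
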